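import Pool.Agent.Helper80.OWN.GaloisSemi

set_option autoImplicit false

namespace Pool.Agent.Results.MP_cfd281_an.GaloisSemiconjugacies

open Pool.Agent.Helper80.OWN

/-- The map `A = (z⁴ + 4z - 6) / (2z³ - 6z + 5)` is a non-special rational map of degree four, and
`B = z³ - 3z` satisfies (i): for every `n ≥ 1` there are non-constant `U`, `V` with
`U ∘ A^n = V ∘ B`.  But every Galois covering `P` for which there is an `F` with `P ∘ A = F ∘ P` has
degree one, and `B` is not a right factor of any `P ∘ A^l`. -/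
theorem result :
    degree exA = 4 ∧ ¬ IsSpecial exA ∧ degree exB = 3 ∧
    (∀ n : ℕ, 1 ≤ n → ∃ U V : RatFunc ℂ, ¬ IsConst U ∧ ¬ IsConst V ∧
      comp U (iter exA n) = comp V exB) ∧
    ∀ P F : RatFunc ℂ, IsGaloisCovering P → comp P exA = comp F P →
      degree P = 1 ∧ ∀ (l : ℕ) (U : RatFunc ℂ), comp P (iter exA l) ≠ comp U exB :=
  ⟨exA_degree, not_special_exA, exB_degree, fun n _ => cond_i n, fun P F hP h => cond_ii P F hP h⟩

end Pool.Agent.Results.MP_cfd281_an.GaloisSemiconjugacies
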